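import Mathlib
import Pool.Agent.R975.Perc

/-!
# One-player percolation games on `ℤ^d` with i.i.d. payoffs have a limit value

`payoff`, `value` : the `n`-stage game on `ℤ^d` with history-dependent strategies and perfect
information; `value` is the max-min value.
-/

set_option autoImplicit false

namespace Pool.Agent.Results.MP_5b044e_pr.OnePlayerLimit

open MeasureTheory ProbabilityTheory Filter Topology Set

variable {d : ℕ} {I J : Type}

/-- The history (list of the past action pairs, in chronological order) before stage `m + 1` when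
Player 1 uses the strategy `σ` and Player 2 uses the strategy `τ` (Player 2 sees the action of
Player 1 at the current stage). -/
def hist (σ : List (I × J) → I) (τ : List (I × J) → I → J) : ℕ → List (I × J)
  | 0 => []
  | m + 1 => hist σ τ m ++ [(σ (hist σ τ m), τ (hist σ τ m) (σ (hist σ τ m)))]

/-- The state after the history `h` when the game starts in `z`. -/
def state (q : I → J → Fin d → ℤ) (z : Fin d → ℤ) (h : List (I × J)) : Fin d → ℤ :=
  z + (h.map fun p => q p.1 p.2).sum

/-- Average payoff of the first `n` stages, for the payoff field `g` and the start `z`. -/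
noncomputable def payoff (q : I → J → Fin d → ℤ) (g : (Fin d → ℤ) → I → J → ℝ)
    (z : Fin d → ℤ) (n : ℕ) (σ : List (I × J) → I) (τ : List (I × J) → I → J) : ℝ :=
  (1 / (n : ℝ)) * ∑ m ∈ Finset.range n,
    g (state q z (hist σ τ m)) (σ (hist σ τ m)) (τ (hist σ τ m) (σ (hist σ τ m)))

/-- The `n`-stage value: the max-min of the average payoff. -/
noncomputable def value (q : I → J → Fin d → ℤ) (g : (Fin d → ℤ) → I → J → ℝ)
    (z : Fin d → ℤ) (n : ℕ) : ℝ :=
  ⨆ σ : List (I × J) → I, ⨅ τ : List (I × J) → I → J, payoff q g z n σ τ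

section aux

open Pool.Agent.R975

/-- total payoff along a word -/
def R (q : I → J → Fin d → ℤ) (g : (Fin d → ℤ) → I → J → ℝ) : (Fin d → ℤ) → List (I × J) → ℝ
  | _, [] => 0
  | z, p :: w => g z p.1 p.2 + R q g (z + q p.1 p.2) w

lemma R_append (q : I → J → Fin d → ℤ) (g : (Fin d → ℤ) → I → J → ℝ) (u v : List (I × J)) :
    ∀ z, R q g z (u ++ v) = R q g z u + R q g (state q z u) v := by
  induction u with
  | nil => intro z; simp [R, state]
  | cons i u ih =>
    intro z
    simp only [List.cons_append, R, ih, state, List.map_cons, List.sum_cons, add_assoc]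

lemma hist_length (σ : List (I × J) → I) (τ : List (I × J) → I → J) (n : ℕ) :
    (hist σ τ n).length = n := by
  induction n with
  | zero => rfl
  | succ n ih => simp [hist, ih]

lemma payoff_eq (q : I → J → Fin d → ℤ) (g : (Fin d → ℤ) → I → J → ℝ)
    (z : Fin d → ℤ) (n : ℕ) (σ : List (I × J) → I) (τ : List (I × J) → I → J) :
    payoff q g z n σ τ = (1 / (n : ℝ)) * R q g z (hist σ τ n) := by
  have h : ∀ n, R q g z (hist σ τ n) = ∑ m ∈ Finset.range n,
      g (state q z (hist σ τ m)) (σ (hist σ τ m)) (τ (hist σ τ m) (σ (hist σ τ m))) := by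
    intro n
    induction n with
    | zero => rfl
    | succ n ih =>
      rw [Finset.sum_range_succ, ← ih, hist, R_append]
      simp [R]
  rw [payoff, h]

/-- the transition map on pairs -/
def qq (q : I → J → Fin d → ℤ) (p : I × J) : Fin d → ℤ := q p.1 p.2

lemma R_affine (q : I → J → Fin d → ℤ) (g : (Fin d → ℤ) → I → J → ℝ)
    (x : (Fin d → ℤ) → I × J → unitInterval) (a b : ℝ)
    (h : ∀ z p, g z p.1 p.2 = a * x z p + b) (w : List (I × J)) :
    ∀ z, R q g z w = a * Perc.S (qq q) x z w + b * w.length := by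
  induction w with
  | nil => intro z; simp [R, Perc.S]
  | cons p w ih =>
    intro z
    simp only [R, Perc.S, ih, h, qq, List.length_cons]
    push_cast
    ring

lemma hist_of_word_left [Subsingleton J] [Nonempty I] [Nonempty J] (w : List (I × J))
    (τ : List (I × J) → I → J) (m : ℕ) (hm : m ≤ w.length) :
    hist (fun h => (w.getD h.length (Classical.arbitrary _)).1) τ m = w.take m := by
  induction m with
  | zero => simp [hist]
  | succ m ih =>
    have hm' : m < w.length := hm
    rw [hist, ih hm'.le, List.take_succ_eq_append_getElem hm']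
    congr 1
    simp only [List.length_take, min_eq_left hm'.le, List.cons.injEq, and_true]
    refine Prod.ext ?_ (Subsingleton.elim _ _)
    simp [List.getD_eq_getElem?_getD, hm']

lemma hist_of_word_right [Subsingleton I] [Nonempty I] [Nonempty J] (w : List (I × J))
    (σ : List (I × J) → I) (m : ℕ) (hm : m ≤ w.length) :
    hist σ (fun h _ => (w.getD h.length (Classical.arbitrary _)).2) m = w.take m := by
  induction m with
  | zero => simp [hist]
  | succ m ih =>
    have hm' : m < w.length := hm
    rw [hist, ih hm'.le, List.take_succ_eq_append_getElem hm']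
    congr 1
    simp only [List.length_take, min_eq_left hm'.le, List.cons.injEq, and_true]
    refine Prod.ext (Subsingleton.elim _ _) ?_
    simp [List.getD_eq_getElem?_getD, hm']

variable [Fintype I] [Fintype J] [Nonempty I] [Nonempty J]

lemma payoff_bd (q : I → J → Fin d → ℤ) (g : (Fin d → ℤ) → I → J → ℝ) {C : ℝ}
    (hC : ∀ z i j, |g z i j| ≤ C) (z : Fin d → ℤ) (n : ℕ) (hn : 1 ≤ n) (σ : List (I × J) → I)
    (τ : List (I × J) → I → J) : |payoff q g z n σ τ| ≤ C := by
  have hn' : (0 : ℝ) < n := by exact_mod_cast hn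
  rw [payoff, abs_mul, abs_of_pos (by positivity : (0 : ℝ) < 1 / n)]
  have h1 : |∑ m ∈ Finset.range n, g (state q z (hist σ τ m)) (σ (hist σ τ m))
      (τ (hist σ τ m) (σ (hist σ τ m)))| ≤ n * C := by
    refine (Finset.abs_sum_le_sum_abs _ _).trans ?_
    calc _ ≤ ∑ m ∈ Finset.range n, C := Finset.sum_le_sum fun m _ => hC _ _ _
      _ = n * C := by simp
  calc _ ≤ 1 / (n : ℝ) * (n * C) := mul_le_mul_of_nonneg_left h1 (by positivity)
    _ = C := by field_simp

lemma value_left [Subsingleton J] (q : I → J → Fin d → ℤ) (g : (Fin d → ℤ) → I → J → ℝ) {C : ℝ}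
    (hC : ∀ z i j, |g z i j| ≤ C) (x : (Fin d → ℤ) → I × J → unitInterval) (a b : ℝ) (ha : 0 < a)
    (h : ∀ z p, g z p.1 p.2 = a * x z p + b) (z : Fin d → ℤ) (n : ℕ) (hn : 1 ≤ n) :
    value q g z n = a * (Perc.VV (qq q) n x z / n) + b := by
  have hn' : (0 : ℝ) < n := by exact_mod_cast hn
  have hbb : ∀ σ, BddBelow (range fun τ : List (I × J) → I → J => payoff q g z n σ τ) := by
    intro σ
    refine ⟨-C, ?_⟩
    rintro _ ⟨τ, rfl⟩
    exact (abs_le.1 (payoff_bd q g hC z n hn σ τ)).1
  have hba : BddAbove (range fun σ : List (I × J) → I =>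
      ⨅ τ : List (I × J) → I → J, payoff q g z n σ τ) := by
    refine ⟨C, ?_⟩
    rintro _ ⟨σ, rfl⟩
    exact (ciInf_le (hbb σ) (Classical.arbitrary _)).trans
      (abs_le.1 (payoff_bd q g hC z n hn σ _)).2
  have hpay : ∀ σ τ, payoff q g z n σ τ = a * (Perc.S (qq q) x z (hist σ τ n) / n) + b := by
    intro σ τ
    rw [payoff_eq, R_affine q g x a b h, hist_length]
    field_simp
  refine le_antisymm ?_ ?_
  · refine ciSup_le fun σ => ?_
    refine (ciInf_le (hbb σ) (Classical.arbitrary _)).trans ?_
    rw [hpay]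
    have h1 : Perc.S (qq q) x z (hist σ (Classical.arbitrary _) n) ≤ Perc.VV (qq q) n x z :=
      le_ciSup (Perc.bdd_Ln (qq q) n x z) (⟨_, hist_length σ _ n⟩ : Perc.Ln (I × J) n)
    have h2 := div_le_div_of_nonneg_right h1 hn'.le
    nlinarith
  · have h1 : Perc.VV (qq q) n x z ≤ (value q g z n - b) / a * n := by
      refine ciSup_le fun w => ?_
      have h2 : ⨅ τ : List (I × J) → I → J, payoff q g z n
          (fun h => (w.1.getD h.length (Classical.arbitrary _)).1) τ ≤ value q g z n :=
        le_ciSup hba _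
      have h3 : ∀ τ, payoff q g z n (fun h => (w.1.getD h.length (Classical.arbitrary _)).1) τ
          = a * (Perc.S (qq q) x z w.1 / n) + b := by
        intro τ
        rw [hpay, hist_of_word_left w.1 τ n w.2.ge, List.take_of_length_le w.2.le]
      simp only [h3, ciInf_const] at h2
      rw [← div_le_iff₀ hn', le_div_iff₀ ha]
      linarith
    rw [← div_le_iff₀ hn', le_div_iff₀ ha] at h1
    linarith

lemma value_right [Subsingleton I] (q : I → J → Fin d → ℤ) (g : (Fin d → ℤ) → I → J → ℝ) {C : ℝ}
    (hC : ∀ z i j, |g z i j| ≤ C) (x : (Fin d → ℤ) → I × J → unitInterval) (a b : ℝ) (ha : 0 < a)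
    (h : ∀ z p, g z p.1 p.2 = -a * x z p + b) (z : Fin d → ℤ) (n : ℕ) (hn : 1 ≤ n) :
    value q g z n = -a * (Perc.VV (qq q) n x z / n) + b := by
  have hn' : (0 : ℝ) < n := by exact_mod_cast hn
  have hbb : ∀ σ, BddBelow (range fun τ : List (I × J) → I → J => payoff q g z n σ τ) := by
    intro σ
    refine ⟨-C, ?_⟩
    rintro _ ⟨τ, rfl⟩
    exact (abs_le.1 (payoff_bd q g hC z n hn σ τ)).1
  have hba : BddAbove (range fun σ : List (I × J) → I =>
      ⨅ τ : List (I × J) → I → J, payoff q g z n σ τ) := by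
    refine ⟨C, ?_⟩
    rintro _ ⟨σ, rfl⟩
    exact (ciInf_le (hbb σ) (Classical.arbitrary _)).trans
      (abs_le.1 (payoff_bd q g hC z n hn σ _)).2
  have hpay : ∀ σ τ, payoff q g z n σ τ = -a * (Perc.S (qq q) x z (hist σ τ n) / n) + b := by
    intro σ τ
    rw [payoff_eq, R_affine q g x (-a) b h, hist_length]
    field_simp
  refine le_antisymm ?_ ?_
  · have h1 : Perc.VV (qq q) n x z ≤ (b - value q g z n) / a * n := by
      refine ciSup_le fun w => ?_
      have h2 : value q g z n ≤ -a * (Perc.S (qq q) x z w.1 / n) + b := by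
        refine ciSup_le fun σ => ?_
        refine (ciInf_le (hbb σ)
          (fun h _ => (w.1.getD h.length (Classical.arbitrary _)).2)).trans ?_
        rw [hpay, hist_of_word_right w.1 σ n w.2.ge, List.take_of_length_le w.2.le]
      rw [← div_le_iff₀ hn', le_div_iff₀ ha]
      linarith
    rw [← div_le_iff₀ hn', le_div_iff₀ ha] at h1
    linarith
  · refine le_trans ?_ (le_ciSup hba (Classical.arbitrary _))
    refine le_ciInf fun τ => ?_
    rw [hpay]
    have h1 : Perc.S (qq q) x z (hist (Classical.arbitrary _) τ n) ≤ Perc.VV (qq q) n x z :=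
      le_ciSup (Perc.bdd_Ln (qq q) n x z) (⟨_, hist_length _ τ n⟩ : Perc.Ln (I × J) n)
    have h2 := div_le_div_of_nonneg_right h1 hn'.le
    nlinarith

omit [Fintype I] [Fintype J] in
lemma zero_case [Finite I] [Finite J] (q : I → J → Fin d → ℤ) (hq : ∀ i j, q i j = 0)
    (x : (Fin d → ℤ) → I × J → unitInterval) (z : Fin d → ℤ) :
    ∃ v : ℝ, Tendsto (fun n : ℕ => Perc.VV (qq q) n x z / n) atTop (𝓝 v) := by
  have := Fintype.ofFinite I
  have := Fintype.ofFinite J
  obtain ⟨p, hp⟩ := Finite.exists_max (x z)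
  refine ⟨x z p, ?_⟩
  have hS : ∀ w : List (I × J), Perc.S (qq q) x z w ≤ x z p * w.length := by
    intro w
    induction w with
    | nil => simp [Perc.S]
    | cons a w ih =>
      have h1 : (x z a : ℝ) ≤ x z p := hp a
      simp only [Perc.S, qq, hq, add_zero, List.length_cons]
      push_cast
      linarith
  have hR : ∀ n : ℕ, Perc.S (qq q) x z (List.replicate n p) = x z p * n := by
    intro n
    induction n with
    | zero => simp [Perc.S]
    | succ n ih =>
      simp only [List.replicate_succ, Perc.S, qq, hq, add_zero, ih]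
      push_cast
      ring
  have hV : ∀ n : ℕ, Perc.VV (qq q) n x z = x z p * n := by
    intro n
    refine le_antisymm (ciSup_le fun w => ?_) ?_
    · have := hS w.1
      rwa [w.2] at this
    · rw [← hR]
      exact le_ciSup (Perc.bdd_Ln (qq q) n x z)
        (⟨List.replicate n p, List.length_replicate⟩ : Perc.Ln (I × J) n)
  refine tendsto_const_nhds.congr' ?_
  filter_upwards [eventually_ge_atTop 1] with n hn
  have hn' : (0 : ℝ) < n := by exact_mod_cast hn
  rw [hV]
  field_simp

/-- transfer to the product space -/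
lemma transfer {Ω : Type*} [MeasurableSpace Ω] (P : Measure Ω) [IsProbabilityMeasure P]
    (q : I → J → Fin d → ℤ) (hq : ∃ i j, q i j ≠ 0)
    (g : Ω → (Fin d → ℤ) → I → J → ℝ)
    (hmeas : ∀ z, Measurable fun ω => g ω z)
    (hind : iIndepFun (fun z ω => g ω z) P)
    (hid : ∀ z, P.map (fun ω => g ω z) = P.map (fun ω => g ω 0))
    (φ : ℝ → unitInterval) (hφ : Measurable φ) :
    ∃ γ : ℝ, ∀ z, ∀ᵐ ω ∂P,
      Tendsto (fun n : ℕ => Perc.VV (qq q) n (fun z p => φ (g ω z p.1 p.2)) z / n) atTop
        (𝓝 γ) := by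
  classical
  obtain ⟨i, j, hij⟩ := hq
  have hΦ : Measurable (fun (y : I → J → ℝ) (p : I × J) => φ (y p.1 p.2)) :=
    measurable_pi_lambda _ fun p => hφ.comp ((measurable_pi_apply p.2).comp
      (measurable_pi_apply p.1))
  set X : (Fin d → ℤ) → Ω → (I × J → unitInterval) := fun z ω p => φ (g ω z p.1 p.2) with hX
  have hXm : ∀ z, Measurable (X z) := fun z => hΦ.comp (hmeas z)
  have hXi : iIndepFun X P := hind.comp (fun _ => fun (y : I → J → ℝ) (p : I × J) =>
    φ (y p.1 p.2)) (fun _ => hΦ)
  have hXid : ∀ z, P.map (X z) = P.map (X 0) := by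
    intro z
    have e : ∀ z, P.map (X z) = (P.map fun ω => g ω z).map
        (fun (y : I → J → ℝ) (p : I × J) => φ (y p.1 p.2)) := by
      intro z
      rw [Measure.map_map hΦ (hmeas z)]
      rfl
    rw [e, e, hid]
  have hmap := (iIndepFun_iff_map_fun_eq_infinitePi_map (fun z => hXm z)).1 hXi
  simp only [hXid] at hmap
  haveI : IsProbabilityMeasure (P.map (X 0)) := Measure.isProbabilityMeasure_map (hXm 0).aemeasurable
  obtain ⟨γ, hγ⟩ := Perc.as_limit (P.map (X 0)) (qq q) (i, j) hij
  refine ⟨γ, fun z => ?_⟩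
  have h1 := hγ z
  rw [← hmap] at h1
  exact ae_of_ae_map (measurable_pi_lambda _ hXm).aemeasurable h1

end aux

/-- **Theorem.** Every one-player percolation game on `ℤ^d` (one of the two finite action sets is a
singleton) with uniformly bounded i.i.d. payoffs `g ω z`, `z ∈ ℤ^d`, has a limit value: for every
start `z` the `n`-stage values converge almost surely. If moreover the state can move, then the
limit is a constant which does not depend on `z`. -/
theorem result {d : ℕ} {I J : Type} [Finite I] [Nonempty I] [Finite J] [Nonempty J]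
    (hone : Subsingleton I ∨ Subsingleton J)
    {Ω : Type*} [MeasurableSpace Ω] (P : Measure Ω) [IsProbabilityMeasure P]
    (q : I → J → Fin d → ℤ)
    (g : Ω → (Fin d → ℤ) → I → J → ℝ)
    (hmeas : ∀ z, Measurable fun ω => g ω z)
    (hbdd : ∃ C, ∀ ω z i j, |g ω z i j| ≤ C)
    (hind : iIndepFun (fun z ω => g ω z) P)
    (hid : ∀ z, P.map (fun ω => g ω z) = P.map (fun ω => g ω 0)) :
    (∀ z, ∀ᵐ ω ∂P, ∃ v : ℝ, Tendsto (fun n : ℕ => value q (g ω) z n) atTop (𝓝 v)) ∧
    ((∃ i j, q i j ≠ 0) → ∃ v : ℝ, ∀ z, ∀ᵐ ω ∂P,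
      Tendsto (fun n : ℕ => value q (g ω) z n) atTop (𝓝 v)) := by
  have := Fintype.ofFinite I
  have := Fintype.ofFinite J
  obtain ⟨C, hC⟩ := hbdd
  obtain ⟨ω0⟩ : Nonempty Ω := nonempty_of_isProbabilityMeasure P
  have hC0 : 0 ≤ C := (abs_nonneg _).trans
    (hC ω0 0 (Classical.arbitrary I) (Classical.arbitrary J))
  have ha : (0 : ℝ) < 2 * C + 1 := by linarith
  -- reduction to `VV`
  have key : ∃ (φ : ℝ → unitInterval) (a b : ℝ), Measurable φ ∧
      ∀ ω z (n : ℕ), 1 ≤ n → value q (g ω) z n =
        a * (Pool.Agent.R975.Perc.VV (qq q) n (fun z p => φ (g ω z p.1 p.2)) z / n) + b := by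
    rcases hone with h | h
    · refine ⟨fun t => projIcc 0 1 zero_le_one ((C - t) / (2 * C + 1)), -(2 * C + 1), C, ?_, ?_⟩
      · exact continuous_projIcc.measurable.comp
          ((measurable_const.sub measurable_id).div_const _)
      · intro ω z n hn
        refine value_right q (g ω) (hC ω) _ (2 * C + 1) C ha ?_ z n hn
        intro z p
        have h1 := abs_le.1 (hC ω z p.1 p.2)
        have h2 : (C - g ω z p.1 p.2) / (2 * C + 1) ∈ Icc (0 : ℝ) 1 := by
          refine ⟨div_nonneg (by linarith) ha.le, ?_⟩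
          rw [div_le_one ha]
          linarith
        simp only
        rw [projIcc_of_mem zero_le_one h2]
        field_simp
        ring
    · refine ⟨fun t => projIcc 0 1 zero_le_one ((t + C) / (2 * C + 1)), (2 * C + 1), -C, ?_, ?_⟩
      · exact continuous_projIcc.measurable.comp
          ((measurable_id.add measurable_const).div_const _)
      · intro ω z n hn
        refine value_left q (g ω) (hC ω) _ (2 * C + 1) (-C) ha ?_ z n hn
        intro z p
        have h1 := abs_le.1 (hC ω z p.1 p.2)
        have h2 : (g ω z p.1 p.2 + C) / (2 * C + 1) ∈ Icc (0 : ℝ) 1 := by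
          refine ⟨div_nonneg (by linarith) ha.le, ?_⟩
          rw [div_le_one ha]
          linarith
        simp only
        rw [projIcc_of_mem zero_le_one h2]
        field_simp
        ring
  obtain ⟨φ, a, b, hφ, hval⟩ := key
  have hconv : ∀ ω z (v : ℝ), Tendsto (fun n : ℕ =>
      Pool.Agent.R975.Perc.VV (qq q) n (fun z p => φ (g ω z p.1 p.2)) z / n) atTop (𝓝 v) →
      Tendsto (fun n : ℕ => value q (g ω) z n) atTop (𝓝 (a * v + b)) := by
    intro ω z v hv
    refine ((hv.const_mul a).add_const b).congr' ?_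
    filter_upwards [eventually_ge_atTop 1] with n hn
    exact (hval ω z n hn).symm
  have h2 : (∃ i j, q i j ≠ 0) → ∃ v : ℝ, ∀ z, ∀ᵐ ω ∂P,
      Tendsto (fun n : ℕ => value q (g ω) z n) atTop (𝓝 v) := by
    intro hq
    obtain ⟨γ, hγ⟩ := transfer P q hq g hmeas hind hid φ hφ
    refine ⟨a * γ + b, fun z => ?_⟩
    filter_upwards [hγ z] with ω hω
    exact hconv ω z γ hω
  refine ⟨fun z => ?_, h2⟩
  by_cases hq : ∃ i j, q i j ≠ 0
  · obtain ⟨v, hv⟩ := h2 hq
    filter_upwards [hv z] with ω hω using ⟨v, hω⟩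
  · push Not at hq
    refine Eventually.of_forall fun ω => ?_
    obtain ⟨v, hv⟩ := zero_case q hq (fun z p => φ (g ω z p.1 p.2)) z
    exact ⟨_, hconv ω z v hv⟩

end Pool.Agent.Results.MP_5b044e_pr.OnePlayerLimit
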